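import Pool.Agent.Q138.PS.UV
import Pool.Agent.Q138.PS.UC
import Pool.Agent.Results.MP_ea8352_nt.ChenPairs

/-!
# Decompositions of `⌊α P(i)⌋` with two Chen pairs

`n = k + m` is admissible if `6 k - 1` and `p_m` both are the lower members of twin prime pairs. There is `κ > 0` such that the
following holds. Let `q ≥ 2`. Outside a set of real numbers of Hausdorff dimension at most `q / (q + 1 / (q 2 ^ (q - 1)))` (that
is `8 / 9` for `q = 2`) every `α > 0` has an `η > 0` such that for all large `N` and ALL integral polynomials `P` of degree `q`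
with positive leading coefficient and coefficients of size at most `N ^ η`, at least `κ N / (log log log log N) ^ 2` of the
`i ≤ N` are such that `n = ⌊α P(i)⌋` has a decomposition `n = k + m`, `m ≤ (log n) ^ 2 (log log n) ^ 4`, in which `6 k - 1` and
`p_m` are prime and `6 k + 1` and `p_m + 2` are primes or products of two (large) primes.
-/

set_option autoImplicit false

namespace Pool.Agent.Results.MP_ea8352_nt.ChenPairsAlongRealMultiples

open Finset Filter Topology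
open Pool.Agent.Q138.PS
open Pool.Agent.Results.MP_ea8352_nt.ChenPairs (Chen)

/-- `n = k + m` with `m ≤ (log n) ^ 2 (log log n) ^ 4` and `Chen (6 k - 1)`, `Chen p_m` -/
def Good (n : ℕ) : Prop :=
  ∃ k m : ℕ, 1 ≤ k ∧ 1 ≤ m ∧ k + m = n ∧ (m : ℝ) ≤ Real.log n ^ 2 * Real.log (Real.log n) ^ 4 ∧
    Chen (6 * k - 1) ∧ Chen (Nat.nth Nat.Prime (m - 1))

open Classical in
/-- the number of the `1 ≤ i ≤ N` for which `⌊α P(i)⌋` is `Good` -/
noncomputable def count (α : ℝ) (P : Polynomial ℤ) (N : ℕ) : ℕ :=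
  ((Icc 1 N).filter fun i : ℕ => Good ⌊α * ((P.eval (i : ℤ) : ℤ) : ℝ)⌋₊).card

theorem count_eq (α : ℝ) (P : Polynomial ℤ) (N : ℕ) : (count α P N : ℝ) = cnP Good α P N := by
  classical
  unfold count cnP cn
  refine congrArg _ (congrArg _ ?_)
  ext n
  simp only [mem_filter]

theorem many : ∃ κ : ℝ, 0 < κ ∧ κ ≤ 1 ∧ ∀ᶠ y : ℕ in atTop, κ / L4 ((y : ℝ) + BC) ^ 2 * y ≤ cn Good y := by
  classical
  obtain ⟨c, hc, h⟩ := Pool.Agent.Results.MP_ea8352_nt.ChenPairs.result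
  have ht : Tendsto (fun y : ℕ => y / 3) atTop atTop :=
    tendsto_atTop_atTop.2 fun b => ⟨3 * b, fun a ha => by omega⟩
  refine ⟨min (c / 6) 1, by positivity, min_le_right _ _, ?_⟩
  filter_upwards [ht.eventually h, (tendsto_natCast_atTop_atTop.comp ht).eventually_ge_atTop BC, eventually_ge_atTop 6]
    with y hy hB hy6
  simp only [Function.comp] at hB
  set X : ℕ := y / 3 with hX
  have hX0 : (0 : ℝ) < X := BC_pos.trans_le hB
  have hXy : (X : ℝ) ≤ y + BC := by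
    have h1 : (X : ℝ) ≤ y := by
      have : X ≤ y := by omega
      exact_mod_cast this
    have := BC_pos
    linarith
  have hyX : (y : ℝ) ≤ 6 * X := by
    have : y ≤ 6 * X := by omega
    exact_mod_cast this
  have hL : L4 (X : ℝ) ≤ L4 ((y : ℝ) + BC) := L4_mono hB hXy
  have hL1 : 1 ≤ L4 (X : ℝ) := L4_ge hB
  have h1 : min (c / 6) 1 / L4 ((y : ℝ) + BC) ^ 2 * y ≤ c * X / L4 (X : ℝ) ^ 2 := by
    calc min (c / 6) 1 / L4 ((y : ℝ) + BC) ^ 2 * y ≤ (c / 6) / L4 (X : ℝ) ^ 2 * (6 * X) := by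
          gcongr
          exact min_le_left _ _
      _ = c * X / L4 (X : ℝ) ^ 2 := by ring
  refine h1.trans (le_trans hy ?_)
  rw [cn_ncard]
  refine Nat.cast_le.2 (Set.ncard_le_ncard ?_ ((Set.finite_Iic y).subset fun n hn => hn.2.1))
  rintro n ⟨h2, h3, k, m, h4, h5, h6, h7, h8, h9⟩
  refine ⟨by omega, by omega, k, m, h4, h5, h6, h7.trans ?_, h8, h9⟩
  have hXn : (X : ℝ) ≤ n := by exact_mod_cast h2.le
  have g1 : L1 (X : ℝ) ≤ L1 n := L1_mono hB hXn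
  have g2 : L2 (X : ℝ) ≤ L2 n := L2_mono hB hXn
  have g3 : 1 ≤ L1 (X : ℝ) := L1_ge1 hB
  have g4 : 1 ≤ L2 (X : ℝ) := L2_ge1 hB
  show L1 (X : ℝ) ^ 2 * L2 (X : ℝ) ^ 4 ≤ L1 (n : ℝ) ^ 2 * L2 (n : ℝ) ^ 4
  gcongr

/-- **Theorem.** -/
theorem result :
    ∃ κ : ℝ, 0 < κ ∧ ∀ q : ℕ, 2 ≤ q →
    ∃ E : Set ℝ, dimH E ≤ ENNReal.ofReal (q / (q + 1 / ((q : ℝ) * 2 ^ (q - 1)))) ∧ ∀ α : ℝ, 0 < α → α ∉ E →
      ∃ η : ℝ, 0 < η ∧ ∀ᶠ N : ℕ in atTop, ∀ P : Polynomial ℤ, P.natDegree = q → 0 < P.leadingCoeff →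
        (∀ j, |((P.coeff j : ℤ) : ℝ)| ≤ (N : ℝ) ^ η) →
        κ * N / Real.log (Real.log (Real.log (Real.log N))) ^ 2 ≤ (count α P N : ℝ) := by
  classical
  obtain ⟨κ, hκ, hκ1, h⟩ := many
  refine ⟨κ / 8, by positivity, fun q hq => ?_⟩
  have hB : ∀ y : ℕ, BC ≤ (y : ℝ) + BC := fun y => by
    have : (0 : ℝ) ≤ y := Nat.cast_nonneg y
    linarith
  obtain ⟨E, hE, hg⟩ := low_slow (ι := Unit) q hq (fun _ => Good) (fun _ y => κ / L4 ((y : ℝ) + BC) ^ 2)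
    (fun _ y => by positivity) (fun _ y => by
      have h1 := L4_ge (hB y)
      rw [div_le_one (by positivity)]
      exact hκ1.trans (one_le_pow₀ h1)) (fun _ a b hab => by
      have h1 := L4_ge (hB a)
      have h2 : L4 ((a : ℝ) + BC) ≤ L4 ((b : ℝ) + BC) := L4_mono (hB a) (by
        have : (a : ℝ) ≤ b := by exact_mod_cast hab
        linarith)
      show κ / L4 ((b : ℝ) + BC) ^ 2 ≤ κ / L4 ((a : ℝ) + BC) ^ 2
      gcongr) (fun _ η hη => by
      filter_upwards [log_small q 2 hκ hη] with N hN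
      refine hN.trans ?_
      have h1 := L4_ge (hB (N ^ (q + 1)))
      have h2 : L4 (((N ^ (q + 1) : ℕ) : ℝ) + BC) ≤ L1 (((N ^ (q + 1) : ℕ) : ℝ) + BC) :=
        (L4_le (hB _)).trans ((L3_le (hB _)).trans (L2_le (hB _)))
      gcongr) (fun _ => h)
  refine ⟨E, hE, fun α hα hαE => ?_⟩
  obtain ⟨η, hη, hN⟩ := hg α hα hαE ()
  refine ⟨η, hη, ?_⟩
  filter_upwards [hN, it_logs q] with N g hlogs
  intro P hdeg hlead hco
  rw [count_eq]
  refine le_trans ?_ (g P hdeg hlead hco)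
  obtain ⟨hBN, -, -, -, e4⟩ := hlogs
  have h1 := L4_ge (hB (N ^ (q + 1)))
  have h2 := L4_ge hBN
  show κ / 8 * N / L4 (N : ℝ) ^ 2 ≤ κ / L4 (((N ^ (q + 1) : ℕ) : ℝ) + BC) ^ 2 / 2 * N
  have h3 : κ / (2 * L4 (N : ℝ)) ^ 2 ≤ κ / L4 (((N ^ (q + 1) : ℕ) : ℝ) + BC) ^ 2 := by gcongr
  calc κ / 8 * N / L4 (N : ℝ) ^ 2 = κ / (2 * L4 (N : ℝ)) ^ 2 / 2 * N := by
        field_simp
        ring
    _ ≤ _ := by gcongr

end Pool.Agent.Results.MP_ea8352_nt.ChenPairsAlongRealMultiples
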