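import Pool.Agent.Q197.SP.Rea8

/-!
# Sums of two indices of twin-prime type in Cramér's random model: the least `k`

`A` is Cramér's random model of the primes and `el S m` the `m`-th element `≥ 3` of `S`, the model of the `m`-th prime.
Almost surely every large `n` is `k + m` with `6 k - 1, 6 k + 1 ∈ A` and `el A m + 2 ∈ A`. For the least such `k` we
determine the upper limit, the exponents of the numbers of the exceptional `n` and the typical values.
-/

set_option autoImplicit false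

namespace Pool.Agent.Results.MP_ea8352_nt.LeastFirstSummand

open MeasureTheory Filter Pool.Agent.Q120.MF Pool.Agent.Q197.CI Pool.Agent.Q197.SP.Rea8
open scoped Topology

theorem result :
    (∃ (Ω : Type) (_ : MeasurableSpace Ω) (μ : Measure Ω) (A : Ω → Set ℕ), IsProbabilityMeasure μ ∧ IsCramer μ A) ∧
    ∀ (Ω : Type) [MeasurableSpace Ω] (μ : Measure Ω) [IsProbabilityMeasure μ] (A : Ω → Set ℕ), IsCramer μ A →
      -- the question, for all large `n`
      (∀ᵐ ω ∂μ, (A ω).Infinite ∧ ∀ᶠ n : ℕ in atTop, ∃ k m : ℕ, 1 ≤ k ∧ 1 ≤ m ∧ n = k + m ∧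
        6 * k - 1 ∈ A ω ∧ 6 * k + 1 ∈ A ω ∧ el (A ω) m + 2 ∈ A ω) ∧
      -- the least `k`
      (∀ c : ℝ, 4 < c → ∀ᵐ ω ∂μ, ∀ᶠ n : ℕ in atTop,
        ∃ k : ℕ, 1 ≤ k ∧ (k : ℝ) ≤ c * (Real.log n ^ 2 * Real.log (Real.log n) ^ 2) ∧ SolK (A ω) n k) ∧
      (∀ c : ℝ, 0 < c → c < 4 → ∀ᵐ ω ∂μ, Tendsto (fun N : ℕ =>
        Real.log (cntP (fun n => NoSol (SolK (A ω)) n (c * (Real.log n ^ 2 * Real.log (Real.log n) ^ 2))) N) /
          Real.log N) atTop (𝓝 (1 - c / 4))) ∧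
      (∀ t : ℝ, 0 < t → ∀ᵐ ω ∂μ, Tendsto (fun N : ℕ =>
        cntP (fun n => NoSol (SolK (A ω)) n (t * (Real.log n * Real.log (Real.log n) ^ 2))) N / N) atTop
          (𝓝 (Real.exp (-t)))) := by
  refine ⟨all_parts.1, fun Ω _ μ _ A hA => ?_⟩
  obtain ⟨h1, h2, h3, h4, _⟩ := all_parts.2 Ω μ A hA
  exact ⟨h1, h2, h3, h4⟩

end Pool.Agent.Results.MP_ea8352_nt.LeastFirstSummand
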