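import Pool.Agent.Q197.SP.Rea8

/-!
# Sums of two indices of twin-prime type in Cramér's random model: the least `m`

`A` is Cramér's random model of the primes and `el S m` the `m`-th element `≥ 3` of `S`, the model of the `m`-th prime.
Almost surely every large `n` is `k + m` with `6 k - 1, 6 k + 1 ∈ A` and `el A m + 2 ∈ A`. For the least such `m` we
determine the upper limit, the exponents of the numbers of the exceptional `n` and the typical values.
-/

set_option autoImplicit false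

namespace Pool.Agent.Results.MP_ea8352_nt.LeastSecondSummand

open MeasureTheory Filter Pool.Agent.Q120.MF Pool.Agent.Q197.CI Pool.Agent.Q197.SP.Rea8
open scoped Topology

theorem result :
    (∃ (Ω : Type) (_ : MeasurableSpace Ω) (μ : Measure Ω) (A : Ω → Set ℕ), IsProbabilityMeasure μ ∧ IsCramer μ A) ∧
    ∀ (Ω : Type) [MeasurableSpace Ω] (μ : Measure Ω) [IsProbabilityMeasure μ] (A : Ω → Set ℕ), IsCramer μ A →
      (∀ c : ℝ, 3 < c → ∀ᵐ ω ∂μ, ∀ᶠ n : ℕ in atTop,
        ∃ m : ℕ, 1 ≤ m ∧ (m : ℝ) ≤ c * (Real.log n ^ 3 * Real.log (Real.log n)) ∧ SolM (A ω) n m) ∧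
      (∀ c : ℝ, 0 < c → c < 3 → ∀ᵐ ω ∂μ, Tendsto (fun N : ℕ =>
        Real.log (cntP (fun n => NoSol (SolM (A ω)) n (c * (Real.log n ^ 3 * Real.log (Real.log n)))) N) /
          Real.log N) atTop (𝓝 (1 - c / 3))) ∧
      (∀ t : ℝ, 0 < t → ∀ᵐ ω ∂μ, Tendsto (fun N : ℕ =>
        cntP (fun n => NoSol (SolM (A ω)) n (t * (Real.log n ^ 2 * Real.log (Real.log n)))) N / N) atTop
          (𝓝 (Real.exp (-(t / 2))))) := by
  refine ⟨all_parts.1, fun Ω _ μ _ A hA => ?_⟩
  exact (all_parts.2 Ω μ A hA).2.2.2.2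

end Pool.Agent.Results.MP_ea8352_nt.LeastSecondSummand
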