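import Pool.Agent.Q253.Thin.GoldSample
import Pool.Agent.Q204.RS.Mostly

/-!
# A random set in place of the indices `m` with `p_m + 2` prime

A decomposition `n = k + m` is admissible if `6 k - 1`, `6 k + 1` are prime and `p_m`, `p_m + 2` are
prime. Here the set of the second summands in `(x, 2 x]` is replaced by a random set of the same (or of a
smaller) size.

For all `w` between `K log ^ 3 x` and `x` almost all the sets `M` of `w` integers of `(x, 2 x]`, up to the
proportion `x ^ (-A)`, have the following properties for EVERY `n` in `[3 x, 6 x]`: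

* the number of decompositions `n = k + m` with `m` in `M`, `6 k - 1` prime and `6 k + 1` a prime or a product
  of two large primes has exactly the expected order of magnitude `w / log ^ 2 x`;
* the number of the decompositions `n = k + m` with `m` in `M` and `6 k - 1`, `6 k + 1` both prime is the
  proportion `w / x` of the number of `k` in `[n - 2 x, n - x)` with `6 k - 1`, `6 k + 1` prime, up to an
  error of `ε` times the expected order of magnitude.

In particular there is one set `M` of integers, with `O(log ^ 4 x)` elements up to `x`, such that every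
large `n` has at least `c log n` decompositions `n = k + m` with `m` in `M`, `6 k - 1` prime and `6 k + 1` a
prime or a product of two large primes.
-/

set_option autoImplicit false
set_option maxHeartbeats 1000000

namespace Pool.Agent.Results.MP_ea8352_nt.RandomSecondSummand

open Finset Filter
open Pool.Agent.Y840.CT
open Pool.Agent.Q253.Thin (sampling upper1 GoodF_t rho_single two_factors)

/-- `n` is a prime or a product of two primes, and all its prime factors are larger than `z` -/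
def P2 (z : ℝ) (n : ℕ) : Prop :=
  (n.Prime ∨ ∃ a b : ℕ, a.Prime ∧ b.Prime ∧ n = a * b) ∧ ∀ q : ℕ, q.Prime → q ∣ n → z < q

/-- `6 k - 1` is prime, and `6 k + 1` is a prime or a product of two primes, larger than `z` -/
def ChenIdx (z : ℝ) (k : ℕ) : Prop := (6 * k - 1).Prime ∧ P2 z (6 * k + 1)

/-- `6 k - 1` and `6 k + 1` are both prime -/
def TwinIdx (k : ℕ) : Prop := (6 * k - 1).Prime ∧ (6 * k + 1).Prime

open Classical in
/-- the number of the decompositions `n = k + m` with `m` in `M` and `ChenIdx z k` -/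
noncomputable def chen (z : ℝ) (M : Finset ℕ) (n : ℕ) : ℕ := (M.filter (fun m => ChenIdx z (n - m))).card

open Classical in
/-- the number of the decompositions `n = k + m` with `m` in `M` and `TwinIdx k` -/
noncomputable def twin (M : Finset ℕ) (n : ℕ) : ℕ := (M.filter (fun m => TwinIdx (n - m))).card

theorem P2_iff {n : ℕ} (hn : 1 < n) (z : ℝ) :
    P2 z n ↔ n.primeFactorsList.length ≤ 2 ∧ ∀ q : ℕ, q.Prime → q ∣ n → z < q :=
  Pool.Agent.Q253.Thin.P2_iff hn z

theorem P2_mono {z z' : ℝ} (h : z' ≤ z) {n : ℕ} (hn : P2 z n) : P2 z' n :=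
  ⟨hn.1, fun q hq hd => lt_of_le_of_lt h (hn.2 q hq hd)⟩

/-- the constant system -/
def F2 : ℕ → Finset ℤ := fun _ => {-2}

theorem sys2 {X : ℕ} (hX : 2 ≤ X) : SysF 1 X F2 (-2) where
  card q _ := by simp [F2]
  ne := by norm_num
  size := by
    norm_num
    exact_mod_cast hX
  mem q _ := by simp [F2]
  loc q hq := by
    unfold F2
    rw [rho_single]
    split_ifs with h
    · exact hq.one_lt
    · rcases hq.two_le.eq_or_lt with h2 | h2
      · exfalso
        apply h
        rw [← h2]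
        norm_num
      · exact h2

/-- the upper bound for the sieve product -/
theorem VT_up : ∃ C : ℝ, 0 < C ∧ ∀ X : ℕ, 2 ≤ X → VF F2 X ≤ C / Real.log X ^ 2 := by
  obtain ⟨c, C, hc, hC, hV⟩ := Pool.Agent.Y843.HG.V1_bounds
  refine ⟨2 * C ^ 2, by positivity, ?_⟩
  intro X hX
  have h2X : 2 ∈ (Icc 1 X).filter Nat.Prime := by
    rw [mem_filter, mem_Icc]
    exact ⟨⟨by norm_num, hX⟩, Nat.prime_two⟩
  have hV1 : Pool.Agent.Y843.HG.V1 X = ∏ q ∈ (Icc 1 X).filter Nat.Prime, (1 - 1 / (q : ℝ)) := by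
    unfold Pool.Agent.Y843.HG.V1
    apply prod_congr _ (fun _ _ => rfl)
    ext q
    rw [Pool.Agent.Y843.HS.Pr_mem, mem_filter, mem_Icc]
    constructor
    · rintro ⟨⟨a, b⟩, c⟩
      exact ⟨⟨c.pos, b⟩, c⟩
    · rintro ⟨⟨a, b⟩, c⟩
      exact ⟨⟨c.pos, b⟩, c⟩
  have hle : VF F2 X ≤ 2 * (Pool.Agent.Y843.HG.V1 X) ^ 2 := by
    have hF : ∀ q : ℕ, F2 q = {-2} := fun _ => rfl
    rw [hV1]
    unfold VF
    rw [← mul_prod_erase _ _ h2X, ← mul_prod_erase _ (fun q : ℕ => (1 - 1 / (q : ℝ))) h2X]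
    have e2 : (1 - (rho (F2 2) 2 : ℝ) / (2 : ℕ)) = 1 / 2 := by
      rw [hF]
      have : rho {-2} 2 = 1 := by decide
      rw [this]
      norm_num
    rw [e2, mul_pow, ← prod_pow]
    have h3 : ∏ q ∈ ((Icc 1 X).filter Nat.Prime).erase 2, (1 - (rho (F2 q) q : ℝ) / q) ≤
        ∏ q ∈ ((Icc 1 X).filter Nat.Prime).erase 2, (1 - 1 / (q : ℝ)) ^ 2 := by
      apply Finset.prod_le_prod
      · intro q hq
        rw [mem_erase, mem_filter] at hq
        have h1 := (sys2 (X := 2) le_rfl).loc q hq.2.2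
        have h0 : (0 : ℝ) < q := by exact_mod_cast hq.2.2.pos
        rw [sub_nonneg, div_le_one h0]
        exact_mod_cast h1.le
      · intro q hq
        rw [mem_erase, mem_filter] at hq
        have h0 : (0 : ℝ) < q := by exact_mod_cast hq.2.2.pos
        rw [hF, rho_single]
        have hnd : ¬ (q : ℤ) ∣ -2 := by
          intro hd
          have h1 : q ∣ 2 := by
            have := Int.natCast_dvd.1 hd
            simpa using this
          have h2 := Nat.le_of_dvd (by norm_num) h1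
          have h3 := hq.2.2.two_le
          omega
        rw [if_neg hnd]
        have h4 : (1 - 1 / (q : ℝ)) ^ 2 = 1 - 2 / q + (1 / (q : ℝ)) ^ 2 := by
          field_simp
          ring
        rw [h4]
        have : (0 : ℝ) ≤ (1 / (q : ℝ)) ^ 2 := by positivity
        push_cast
        linarith
    have h5 : (0 : ℝ) ≤ ∏ q ∈ ((Icc 1 X).filter Nat.Prime).erase 2, (1 - 1 / (q : ℝ)) ^ 2 :=
      prod_nonneg fun q _ => by positivity
    push_cast
    nlinarith
  have h6 := (hV X hX).2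
  have h7 := pow_le_pow_left₀ (Pool.Agent.Y843.HG.V1_pos X).le h6 2
  rw [div_pow] at h7
  calc VF F2 X ≤ 2 * (Pool.Agent.Y843.HG.V1 X) ^ 2 := hle
    _ ≤ 2 * (C ^ 2 / Real.log X ^ 2) := by linarith
    _ = _ := by ring

/-- the ninth root of `48 x` is between `3` and `x` -/
theorem ninth_bd {x : ℕ} (hx : 500 ≤ x) :
    3 ≤ ((48 * x : ℕ) : ℝ) ^ (1 / 9 : ℝ) ∧ ((48 * x : ℕ) : ℝ) ^ (1 / 9 : ℝ) ≤ x := by
  have hxr : (500 : ℝ) ≤ x := by exact_mod_cast hx
  constructor
  · have h1 : ((3 : ℝ) ^ 9) ≤ ((48 * x : ℕ) : ℝ) := by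
      push_cast
      linarith
    have h2 := Real.rpow_le_rpow (by positivity) h1 (show (0 : ℝ) ≤ 1 / 9 by norm_num)
    have h3 : ((3 : ℝ) ^ 9) ^ (1 / 9 : ℝ) = 3 := by
      rw [← Real.rpow_natCast, ← Real.rpow_mul (by norm_num)]
      norm_num
    linarith
  · have h8 : ((48 * x : ℕ) : ℝ) ≤ (x : ℝ) ^ (2 : ℝ) := by
      rw [Real.rpow_two]
      push_cast
      nlinarith
    have hx0 : (0 : ℝ) ≤ x := Nat.cast_nonneg x
    have h1 := Real.rpow_le_rpow (by positivity) h8 (show (0 : ℝ) ≤ 1 / 9 by norm_num)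
    rw [← Real.rpow_mul hx0] at h1
    refine h1.trans ?_
    have h2 : (1 : ℝ) ≤ x := by linarith
    have := Real.rpow_le_rpow_of_exponent_le h2 (show (2 * (1 / 9) : ℝ) ≤ 1 by norm_num)
    rwa [Real.rpow_one] at this

open Classical in
/-- the second summands in `(x, 2 x]` with a first summand that is the index of a Chen pair -/
noncomputable def RC (x n : ℕ) : Finset ℕ :=
  (Ioc x (2 * x)).filter (fun m => ChenIdx (((48 * x : ℕ) : ℝ) ^ (1 / 9 : ℝ)) (n - m))

theorem RC_card {t x n : ℕ} (ht : 9 ≤ t) (hx : 500 ≤ x) (hn : 3 * x ≤ n) :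
    (RC x n).card = (GoodF t (48 * x) (6 * (n - 2 * x) - 2) (6 * (n - x) - 2) F2 (-2)).card := by
  classical
  obtain ⟨hz3, hzx⟩ := ninth_bd hx
  have hX1 : (1 : ℝ) ≤ ((48 * x : ℕ) : ℝ) := by exact_mod_cast (by omega : 1 ≤ 48 * x)
  have ht9 : (9 : ℝ) ≤ t := by exact_mod_cast ht
  have hpow : ((48 * x : ℕ) : ℝ) ^ (1 / (t : ℝ)) ≤ ((48 * x : ℕ) : ℝ) ^ (1 / 9 : ℝ) :=
    Real.rpow_le_rpow_of_exponent_le hX1 (one_div_le_one_div_of_le (by norm_num) ht9)
  have himg : (RC x n).image (fun m => 6 * (n - m) - 1) =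
      GoodF t (48 * x) (6 * (n - 2 * x) - 2) (6 * (n - x) - 2) F2 (-2) := by
    ext p
    rw [mem_image]
    unfold RC GoodF
    rw [mem_filter, mem_Ioc]
    constructor
    · rintro ⟨m, hm, rfl⟩
      rw [mem_filter, mem_Ioc] at hm
      obtain ⟨⟨h1, h2⟩, h3, h4⟩ := hm
      have hk1 : x ≤ n - m := by omega
      rw [P2_iff (by omega)] at h4
      have e : (-2 : ℤ) - ((6 * (n - m) - 1 : ℕ) : ℤ) = -((6 * (n - m) + 1 : ℕ) : ℤ) := by
        rw [Nat.cast_sub (by omega)]
        push_cast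
        ring
      refine ⟨⟨by omega, by omega⟩, h3, ?_, ⟨?_, ?_, ?_⟩, ?_⟩
      · have h5 : (x : ℝ) < ((6 * (n - m) - 1 : ℕ) : ℝ) := by exact_mod_cast (by omega : x < 6 * (n - m) - 1)
        linarith
      · rw [e]
        simp
        omega
      · rw [e, Int.natAbs_neg, Int.natAbs_natCast]
        exact h4.1
      · intro q hq hd
        rw [e, dvd_neg] at hd
        exact h4.2 q hq (by exact_mod_cast hd)
      · intro q hq hqX h hh hd
        unfold F2 at hh
        rw [mem_singleton] at hh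
        rw [hh, e, dvd_neg] at hd
        have := h4.2 q hq (by exact_mod_cast hd)
        linarith
    · rintro ⟨⟨h1, h2⟩, hp, _, ⟨h3, h4, h5⟩, _⟩
      have e : (-2 : ℤ) - (p : ℤ) = -((p + 2 : ℕ) : ℤ) := by
        push_cast
        ring
      have hpx : 6 * x - 2 < p := by omega
      have h3p : ¬ 3 ∣ p := by
        intro h
        have := (Nat.prime_dvd_prime_iff_eq Nat.prime_three hp).1 h
        omega
      have h2p : ¬ 2 ∣ p := by
        intro h
        have := (Nat.prime_dvd_prime_iff_eq Nat.prime_two hp).1 h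
        omega
      have h3p2 : ¬ 3 ∣ p + 2 := by
        intro h
        have h6 := h5 3 Nat.prime_three (by
          rw [e, dvd_neg]
          exact_mod_cast h)
        have h7 : ((3 : ℕ) : ℝ) = 3 := by norm_num
        rw [h7] at h6
        linarith
      have hp2 : p % 2 = 1 := by omega
      have hp3 : p % 3 = 2 := by omega
      have hp6 : p % 6 = 5 := by omega
      obtain ⟨k, hk⟩ : ∃ k, p = 6 * k - 1 ∧ 1 ≤ k := ⟨(p + 1) / 6, by omega, by omega⟩
      obtain ⟨hk, hk1⟩ := hk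
      refine ⟨n - k, ?_, by omega⟩
      rw [mem_filter, mem_Ioc]
      have e1 : n - (n - k) = k := by omega
      have e2 : p + 2 = 6 * k + 1 := by omega
      refine ⟨⟨by omega, by omega⟩, ?_⟩
      rw [e1]
      refine ⟨by rw [← hk]; exact hp, ?_⟩
      rw [← e2, P2_iff (by omega)]
      rw [e, Int.natAbs_neg, Int.natAbs_natCast] at h4
      refine ⟨h4, fun q hq hd => h5 q hq ?_⟩
      rw [e, dvd_neg]
      exact_mod_cast hd
  rw [← himg, card_image_of_injOn]
  intro a ha b hb hab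
  rw [mem_coe] at ha hb
  unfold RC at ha hb
  rw [mem_filter, mem_Ioc] at ha hb
  simp only at hab
  omega

open Classical in
/-- the second summands in `(x, 2 x]` with a first summand that is the index of a twin prime pair -/
noncomputable def RT (x n : ℕ) : Finset ℕ := (Ioc x (2 * x)).filter (fun m => TwinIdx (n - m))

theorem RT_sub {x n : ℕ} (hx : 500 ≤ x) (hn : 3 * x ≤ n) : RT x n ⊆ RC x n := by
  classical
  obtain ⟨hz3, hzx⟩ := ninth_bd hx
  intro m hm
  unfold RT at hm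
  unfold RC
  rw [mem_filter] at hm ⊢
  obtain ⟨h1, h2, h3⟩ := hm
  refine ⟨h1, h2, Or.inl h3, ?_⟩
  intro q hq hd
  rw [mem_Ioc] at h1
  have h4 := (Nat.prime_dvd_prime_iff_eq hq h3).1 hd
  have h5 : x < q := by omega
  have h6 : (x : ℝ) < q := by exact_mod_cast h5
  linarith

theorem inter_RC {x n : ℕ} {M : Finset ℕ} (hM : M ⊆ Ioc x (2 * x)) :
    (M ∩ RC x n).card = chen (((48 * x : ℕ) : ℝ) ^ (1 / 9 : ℝ)) M n := by
  classical
  unfold chen RC
  congr 1
  ext m
  rw [mem_inter, mem_filter, mem_filter]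
  exact ⟨fun h => ⟨h.1, h.2.2⟩, fun h => ⟨h.1, hM h.1, h.2⟩⟩

theorem inter_RT {x n : ℕ} {M : Finset ℕ} (hM : M ⊆ Ioc x (2 * x)) : (M ∩ RT x n).card = twin M n := by
  classical
  unfold twin RT
  congr 1
  ext m
  rw [mem_inter, mem_filter, mem_filter]
  exact ⟨fun h => ⟨h.1, h.2.2⟩, fun h => ⟨h.1, hM h.1, h.2⟩⟩

/-- the regularity of a set `M` of `w` integers of `(x, 2 x]`: for every `n` in `[3 x, 6 x]` the number of
decompositions with `6 k - 1` prime and `6 k + 1` a prime or a product of two primes has the order of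
magnitude `w / log ^ 2 x`, and the number of the decompositions with `6 k - 1`, `6 k + 1` prime is the
proportion `w / x` of the number for the full set, up to `ε w / log ^ 2 x` -/
def Regular (c C ε : ℝ) (x w : ℕ) (M : Finset ℕ) : Prop := ∀ n : ℕ, 3 * x ≤ n → n ≤ 6 * x →
  c * (w / Real.log x ^ 2) ≤ chen (((48 * x : ℕ) : ℝ) ^ (1 / 9 : ℝ)) M n ∧
  chen (((48 * x : ℕ) : ℝ) ^ (1 / 9 : ℝ)) M n ≤ C * (w / Real.log x ^ 2) ∧
  |(twin M n : ℝ) - w / x * twin (Ioc x (2 * x)) n| ≤ ε * (w / Real.log x ^ 2)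

open Classical in
/-- the windows -/
theorem window : ∃ c C : ℝ, 0 < c ∧ 0 < C ∧ ∀ ε : ℝ, 0 < ε → ∀ A : ℕ, ∃ K : ℝ, 0 < K ∧ ∃ x₀ : ℕ, ∀ x : ℕ,
    x₀ ≤ x → ∀ w : ℕ, K * Real.log x ^ 3 ≤ w → w ≤ x →
      ((powersetCard w (Ioc x (2 * x))).filter (fun M => ¬ Regular c C ε x w M)).card * x ^ A ≤ x.choose w := by
  obtain ⟨t0, ht0, c0, hc0, hgen, -⟩ := genF 1
  set t := max t0 9 with htdef
  have ht1 : 1 ≤ t := ht0.trans (le_max_left _ _)
  have ht9 : 9 ≤ t := le_max_right _ _
  obtain ⟨C0, hC0, hup⟩ := upper1 1 t ht1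
  obtain ⟨c1, hc1, hVlow⟩ := VF_low 1
  obtain ⟨C1, hC1, hVup⟩ := VT_up
  obtain ⟨X₁, hX₁⟩ := hgen (1 / 8) (by norm_num)
  obtain ⟨X₂, hX₂⟩ := hup (1 / 8) (by norm_num)
  refine ⟨c0 / 2 * (3 / 2 * c1), 12 * C0 * C1, by positivity, by positivity, ?_⟩
  intro ε hε A
  set ε' : ℝ := min (min (c0 / (2 * C0)) 1) (ε / (6 * C0 * C1)) with hε'
  have hε'0 : 0 < ε' := by positivity
  have e1 : ε' * C0 ≤ c0 / 2 := by
    have h1 : ε' ≤ c0 / (2 * C0) := (min_le_left _ _).trans (min_le_left _ _)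
    have h2 := mul_le_mul_of_nonneg_right h1 hC0.le
    refine h2.trans (le_of_eq ?_)
    field_simp
  have e2 : ε' ≤ 1 := (min_le_left _ _).trans (min_le_right _ _)
  have e4 : ε' * (6 * C0 * C1) ≤ ε := by
    have h1 : ε' ≤ ε / (6 * C0 * C1) := min_le_right _ _
    rwa [le_div_iff₀ (by positivity)] at h1
  set K : ℝ := 4 * (A + 4) / (ε' ^ 2 * (C0 * (3 / 2 * c1))) with hK
  have hK0 : 0 < K := by positivity
  have hK2 : ε' ^ 2 * (C0 * (3 / 2 * c1)) * K = 4 * (A + 4) := by
    rw [hK]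
    field_simp
  refine ⟨K, hK0, max (max X₁ X₂) 500, ?_⟩
  intro x hx w hw hwx
  have hx1 : X₁ ≤ x := le_trans (le_max_left _ _) ((le_max_left _ _).trans hx)
  have hx2 : X₂ ≤ x := le_trans (le_max_right _ _) ((le_max_left _ _).trans hx)
  have hx5 : 500 ≤ x := (le_max_right _ _).trans hx
  have hxr : (500 : ℝ) ≤ x := by exact_mod_cast hx5
  have hx0 : (0 : ℝ) < x := by linarith
  have hl1 : 1 ≤ Real.log x := by
    rw [Real.le_log_iff_exp_le hx0]
    have := Real.exp_one_lt_d9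
    linarith
  have hl : 0 < Real.log x := by linarith
  have hlX : Real.log ((48 * x : ℕ) : ℝ) ≤ 2 * Real.log x := by
    have h1 : ((48 * x : ℕ) : ℝ) ≤ (x : ℝ) ^ 2 := by
      push_cast
      nlinarith
    have h2 := Real.log_le_log (by positivity) h1
    rwa [Real.log_pow, Nat.cast_ofNat] at h2
  have hlX1 : Real.log x ≤ Real.log ((48 * x : ℕ) : ℝ) :=
    Real.log_le_log hx0 (by exact_mod_cast (by omega : x ≤ 48 * x))
  have hw0 : (0 : ℝ) < w := lt_of_lt_of_le (by positivity) hw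
  set V : ℝ := VF F2 (48 * x) with hV
  have hVlo : c1 / (4 * Real.log x ^ 2) ≤ V := by
    refine le_trans ?_ (hVlow (48 * x) (by omega) F2 (sys2 (X := 2) le_rfl).card (sys2 (X := 2) le_rfl).loc)
    apply div_le_div_of_nonneg_left hc1.le (pow_pos (hl.trans_le hlX1) _)
    calc Real.log ((48 * x : ℕ) : ℝ) ^ (1 + 1) = Real.log ((48 * x : ℕ) : ℝ) ^ 2 := rfl
      _ ≤ (2 * Real.log x) ^ 2 := pow_le_pow_left₀ (by linarith) hlX 2
      _ = _ := by ring
  have hVhi : V ≤ C1 / Real.log x ^ 2 := by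
    refine (hVup (48 * x) (by omega)).trans ?_
    apply div_le_div_of_nonneg_left hC1.le (pow_pos hl 2)
    exact pow_le_pow_left₀ hl.le hlX1 2
  have hV0 : 0 < V := lt_of_lt_of_le (by positivity) hVlo
  set E : ℝ := 6 * w * V with hE
  have hE0 : 0 < E := by positivity
  have hElo : 3 / 2 * c1 * (w / Real.log x ^ 2) ≤ E := by
    have h1 := mul_le_mul_of_nonneg_left hVlo (show 0 ≤ 6 * (w : ℝ) by positivity)
    refine le_trans (le_of_eq ?_) h1
    field_simp
    ring
  have hEhi : E ≤ 6 * C1 * (w / Real.log x ^ 2) := by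
    have h1 := mul_le_mul_of_nonneg_left hVhi (show 0 ≤ 6 * (w : ℝ) by positivity)
    refine le_trans h1 (le_of_eq ?_)
    field_simp
  -- the counts
  have hcount : ∀ n : ℕ, 3 * x ≤ n → n ≤ 6 * x →
      c0 * (6 * x * V) ≤ ((RC x n).card : ℝ) ∧ ((RC x n).card : ℝ) ≤ C0 * (6 * x * V) := by
    intro n h3 h6
    have hAB : ((6 * (n - x) - 2 : ℕ) : ℝ) - ((6 * (n - 2 * x) - 2 : ℕ) : ℝ) = 6 * x := by
      have : 6 * (n - x) - 2 = 6 * (n - 2 * x) - 2 + 6 * x := by omega
      rw [this]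
      push_cast
      ring
    have hAB' : (1 / 8 : ℝ) * ((48 * x : ℕ) : ℝ) ≤
        ((6 * (n - x) - 2 : ℕ) : ℝ) - ((6 * (n - 2 * x) - 2 : ℕ) : ℝ) := by
      rw [hAB]
      push_cast
      linarith
    have g1 := hX₁ (48 * x) (by omega) F2 (-2) (sys2 (by omega)) (6 * (n - 2 * x) - 2) (6 * (n - x) - 2)
      (by omega) hAB'
    have g2 := hX₂ (48 * x) (by omega) F2 (-2) (sys2 (by omega)) (6 * (n - 2 * x) - 2) (6 * (n - x) - 2)
      (by omega) hAB'
    have g3 : ((GoodF t0 (48 * x) (6 * (n - 2 * x) - 2) (6 * (n - x) - 2) F2 (-2)).card : ℝ) ≤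
        (GoodF t (48 * x) (6 * (n - 2 * x) - 2) (6 * (n - x) - 2) F2 (-2)).card := by
      exact_mod_cast card_le_card (GoodF_t ht0 (le_max_left _ _) (by omega) _ _)
    rw [hAB, ← hV] at g1 g2
    rw [RC_card ht9 hx5 h3]
    exact ⟨by linarith, g2⟩
  set p : ℝ := w / x with hp
  have hp0 : 0 ≤ p := by positivity
  have hpE : p * (6 * x * V) = E := by
    rw [hp, hE]
    field_simp
  have hPcard : (Ioc x (2 * x)).card = x := by
    rw [Nat.card_Ioc]
    omega
  set I : Finset (ℕ × Bool) := Icc (3 * x) (6 * x) ×ˢ univ with hI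
  set R : ℕ × Bool → Finset ℕ := fun i => if i.2 = true then RT x i.1 else RC x i.1 with hR
  have hmem : ∀ i ∈ I, 3 * x ≤ i.1 ∧ i.1 ≤ 6 * x := by
    intro i hi
    rw [hI, mem_product, mem_Icc] at hi
    exact hi.1
  have hIc : I.card ≤ 6 * x + 2 := by
    rw [hI, card_product, Nat.card_Icc, Finset.card_univ, Fintype.card_bool]
    omega
  have hmost := Pool.Agent.Q204.RS.mostly (Ioc x (2 * x)) I R (by
      intro i _
      rw [hR]
      simp only
      split_ifs
      · unfold RT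
        exact filter_subset _ _
      · unfold RC
        exact filter_subset _ _) (w := w) (by rw [hPcard]; exact hwx) (by rw [hPcard]; omega) hε'0 e2
      (fun _ => C0 * E) (by
      intro i hi
      rw [hPcard, ← hp]
      obtain ⟨h3, h6⟩ := hmem i hi
      have h7 := (hcount i.1 h3 h6).2
      have h8 : ((R i).card : ℝ) ≤ ((RC x i.1).card : ℝ) := by
        rw [hR]
        simp only
        split_ifs
        · exact_mod_cast card_le_card (RT_sub hx5 h3)
        · exact le_rfl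
      have h9 := mul_le_mul_of_nonneg_left (h8.trans h7) hp0
      refine h9.trans (le_of_eq ?_)
      rw [← hpE]
      ring) ((A + 4) * Real.log x) (by
      intro i hi
      have h1 : 3 / 2 * c1 * (K * Real.log x) ≤ E := by
        refine le_trans ?_ hElo
        apply mul_le_mul_of_nonneg_left _ (by positivity)
        rw [le_div_iff₀ (by positivity)]
        refine le_trans (le_of_eq ?_) hw
        ring
      have h2 := mul_le_mul_of_nonneg_left h1 (show 0 ≤ ε' ^ 2 * C0 by positivity)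
      calc 4 * (((A : ℝ) + 4) * Real.log x) = (4 * (A + 4)) * Real.log x := by ring
        _ = ε' ^ 2 * (C0 * (3 / 2 * c1)) * K * Real.log x := by rw [hK2]
        _ = ε' ^ 2 * C0 * (3 / 2 * c1 * (K * Real.log x)) := by ring
        _ ≤ _ := h2
        _ = _ := by ring)
  simp only [hPcard] at hmost
  have hexp : Real.exp (-((A + 4) * Real.log x)) = 1 / (x : ℝ) ^ (A + 4) := by
    rw [Real.exp_neg, one_div]
    congr 1
    rw [show ((A : ℝ) + 4) * Real.log x = ((A + 4 : ℕ) : ℝ) * Real.log x by push_cast; ring, Real.exp_nat_mul,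
      Real.exp_log hx0]
  rw [hexp] at hmost
  have hsub : (powersetCard w (Ioc x (2 * x))).filter (fun M => ¬ Regular (c0 / 2 * (3 / 2 * c1)) (12 * C0 * C1) ε x w M) ⊆
      (powersetCard w (Ioc x (2 * x))).filter
        (fun S => ¬ ∀ i ∈ I, |((S ∩ R i).card : ℝ) - (w / x : ℝ) * (R i).card| ≤ ε' * (C0 * E)) := by
    intro M hM
    rw [mem_filter] at hM ⊢
    refine ⟨hM.1, fun hMR => hM.2 ?_⟩
    have hMP := (mem_powersetCard.1 hM.1).1
    intro n h3 h6
    have hJn : ∀ b : Bool, (n, b) ∈ I := by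
      intro b
      rw [hI, mem_product, mem_Icc]
      exact ⟨⟨h3, h6⟩, mem_univ _⟩
    have k1 := hMR (n, false) (hJn false)
    have k2 := hMR (n, true) (hJn true)
    rw [← hp, hR] at k1 k2
    simp only [if_true, Bool.false_eq_true, if_false] at k1 k2
    rw [inter_RC hMP] at k1
    have hRT : (RT x n).card = twin (Ioc x (2 * x)) n := by
      unfold RT twin
      rfl
    rw [inter_RT hMP, hRT] at k2
    obtain ⟨g1, g2⟩ := hcount n h3 h6
    have g3 := mul_le_mul_of_nonneg_left g1 hp0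
    have g4 := mul_le_mul_of_nonneg_left g2 hp0
    have g5 : p * (c0 * (6 * x * V)) = c0 * E := by
      rw [← hpE]
      ring
    have g6 : p * (C0 * (6 * x * V)) = C0 * E := by
      rw [← hpE]
      ring
    rw [g5] at g3
    rw [g6] at g4
    obtain ⟨k3, k4⟩ := abs_le.1 k1
    have h1E := mul_le_mul_of_nonneg_right e1 hE0.le
    have h2E : ε' * (C0 * E) ≤ C0 * E := by
      have := mul_le_mul_of_nonneg_right e2 (show 0 ≤ C0 * E by positivity)
      linarith
    have hw2 : 0 ≤ (w : ℝ) / Real.log x ^ 2 := by positivity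
    refine ⟨?_, ?_, ?_⟩
    · have h1 : c0 / 2 * E ≤ chen (((48 * x : ℕ) : ℝ) ^ (1 / 9 : ℝ)) M n := by linarith
      refine le_trans ?_ h1
      have := mul_le_mul_of_nonneg_left hElo (show 0 ≤ c0 / 2 by positivity)
      linarith
    · have h1 : (chen (((48 * x : ℕ) : ℝ) ^ (1 / 9 : ℝ)) M n : ℝ) ≤ 2 * C0 * E := by linarith
      refine h1.trans ?_
      have := mul_le_mul_of_nonneg_left hEhi (show 0 ≤ 2 * C0 by positivity)
      linarith
    · refine k2.trans ?_
      have h1 := mul_le_mul_of_nonneg_left hEhi (show 0 ≤ ε' * C0 by positivity)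
      have h2 := mul_le_mul_of_nonneg_right e4 hw2
      linarith
  have hfin : (((powersetCard w (Ioc x (2 * x))).filter
      (fun M => ¬ Regular (c0 / 2 * (3 / 2 * c1)) (12 * C0 * C1) ε x w M)).card : ℝ) * (x : ℝ) ^ A ≤ x.choose w := by
    have h1 : (((powersetCard w (Ioc x (2 * x))).filter
      (fun M => ¬ Regular (c0 / 2 * (3 / 2 * c1)) (12 * C0 * C1) ε x w M)).card : ℝ) ≤
        (x.choose w : ℝ) * ((x + 1) * (2 * I.card * (1 / (x : ℝ) ^ (A + 4)))) := by
      refine le_trans ?_ hmost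
      exact_mod_cast card_le_card hsub
    have h2 : ((x : ℝ) + 1) * (2 * I.card * (1 / (x : ℝ) ^ (A + 4))) ≤ 1 / (x : ℝ) ^ A := by
      have h3 : (I.card : ℝ) ≤ 6 * x + 2 := by exact_mod_cast hIc
      have h4 : ((x : ℝ) + 1) * (2 * I.card) ≤ (x : ℝ) ^ 4 := by
        have h5 : ((x : ℝ) + 1) * (2 * I.card) ≤ (2 * x) * (2 * (7 * x)) := by
          apply mul_le_mul (by linarith) (by linarith) (by positivity) (by positivity)
        refine h5.trans ?_
        have h6 : (28 : ℝ) ≤ (x : ℝ) ^ 2 := by nlinarith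
        nlinarith [mul_nonneg (sub_nonneg.2 h6) (sq_nonneg (x : ℝ))]
      calc ((x : ℝ) + 1) * (2 * I.card * (1 / (x : ℝ) ^ (A + 4))) =
          (((x : ℝ) + 1) * (2 * I.card)) * (1 / (x : ℝ) ^ (A + 4)) := by ring
        _ ≤ (x : ℝ) ^ 4 * (1 / (x : ℝ) ^ (A + 4)) := mul_le_mul_of_nonneg_right h4 (by positivity)
        _ = 1 / (x : ℝ) ^ A := by
          rw [pow_add]
          field_simp
    have h3 := h1.trans (mul_le_mul_of_nonneg_left h2 (Nat.cast_nonneg _))
    have h4 := mul_le_mul_of_nonneg_right h3 (show 0 ≤ (x : ℝ) ^ A by positivity)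
    refine h4.trans (le_of_eq ?_)
    field_simp
  exact_mod_cast hfin

/-- regular sets exist -/
theorem window_exists : ∃ c : ℝ, 0 < c ∧ ∃ K : ℝ, 0 < K ∧ ∃ x₀ : ℕ, ∀ x : ℕ,
    x₀ ≤ x → ∀ w : ℕ, K * Real.log x ^ 3 ≤ w → w ≤ x → ∃ M ⊆ Ioc x (2 * x), M.card = w ∧
      ∀ n : ℕ, 3 * x ≤ n → n ≤ 6 * x →
        c * (w / Real.log x ^ 2) ≤ chen (((48 * x : ℕ) : ℝ) ^ (1 / 9 : ℝ)) M n := by
  classical
  obtain ⟨c, C, hc, hC, h⟩ := window
  obtain ⟨K, hK, x₀, hx₀⟩ := h 1 one_pos 1
  refine ⟨c, hc, K, hK, max x₀ 2, fun x hx w hw hwx => ?_⟩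
  have h1 := hx₀ x ((le_max_left _ _).trans hx) w hw hwx
  have hx2 : 2 ≤ x := (le_max_right _ _).trans hx
  by_contra hcon
  push Not at hcon
  have h2 : (powersetCard w (Ioc x (2 * x))).filter (fun M => ¬ Regular c C 1 x w M) =
      powersetCard w (Ioc x (2 * x)) := by
    apply filter_true_of_mem
    intro M hM hreg
    rw [mem_powersetCard] at hM
    obtain ⟨n, h3, h6, h7⟩ := hcon M hM.1 hM.2
    exact absurd (hreg n h3 h6).1 (not_le.2 h7)
  rw [h2, card_powersetCard, Nat.card_Ioc, show 2 * x - x = x by omega, pow_one] at h1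
  have h3 : 0 < x.choose w := Nat.choose_pos hwx
  nlinarith

/-- `K log ^ 3` integers are available -/
theorem many (K : ℝ) : ∃ x₀ : ℕ, ∀ x : ℕ, x₀ ≤ x → K * Real.log x ^ 3 ≤ x := by
  have h2 := (isLittleO_log_rpow_rpow_atTop (s := 1) ((3 : ℕ) : ℝ) (by norm_num)).def
    (show (0 : ℝ) < 1 / (|K| + 1) by positivity)
  obtain ⟨x₂, h₂⟩ := eventually_atTop.1 (tendsto_natCast_atTop_atTop (R := ℝ) |>.eventually h2)
  refine ⟨max x₂ 3, fun x hx => ?_⟩
  have g2 := h₂ x ((le_max_left _ _).trans hx)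
  have g3 : 3 ≤ x := (le_max_right _ _).trans hx
  have hx0 : (0 : ℝ) < x := by exact_mod_cast (by omega : 0 < x)
  have hl : 0 < Real.log x := Real.log_pos (by exact_mod_cast (by omega : 1 < x))
  rw [Real.rpow_natCast, Real.rpow_one, Real.norm_of_nonneg (by positivity), Real.norm_of_nonneg hx0.le,
    div_mul_eq_mul_div, one_mul, le_div_iff₀ (by positivity)] at g2
  have h3 : K * Real.log x ^ 3 ≤ |K| * Real.log x ^ 3 :=
    mul_le_mul_of_nonneg_right (le_abs_self K) (by positivity)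
  have h4 : 0 ≤ Real.log x ^ 3 := by positivity
  nlinarith

open Classical in
/-- **Theorem.** (1) There are `c, C > 0` such that for all `ε > 0` and `A` there is a `K` such that for all
large `x` and all integers `w` with `K log ^ 3 x ≤ w ≤ x`, all but the proportion `x ^ (-A)` of the sets `M` of
`w` integers of `(x, 2 x]` are regular: for EVERY `n` in `[3 x, 6 x]` the number of the decompositions
`n = k + m` with `m` in `M`, `6 k - 1` prime and `6 k + 1` a prime or a product of two primes, larger than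
`(48 x) ^ (1 / 9)`, is between `c w / log ^ 2 x` and `C w / log ^ 2 x`, and the number of the decompositions
`n = k + m` with `m` in `M` and `6 k - 1`, `6 k + 1` prime is the proportion `w / x` of their number for
all `m` in `(x, 2 x]`, up to an error `ε w / log ^ 2 x`.
(2) There is a set `M` of integers, with at most `C log ^ 4 x` elements up to `x`, such that every large `n`
has at least `c log n` decompositions `n = k + m` with `m` in `M`, `6 k - 1` prime and `6 k + 1` a prime or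
a product of two primes, larger than `n ^ (1 / 9)`. -/
theorem result :
    (∃ c C : ℝ, 0 < c ∧ 0 < C ∧ ∀ ε : ℝ, 0 < ε → ∀ A : ℕ, ∃ K : ℝ, 0 < K ∧ ∃ x₀ : ℕ, ∀ x : ℕ,
      x₀ ≤ x → ∀ w : ℕ, K * Real.log x ^ 3 ≤ w → w ≤ x →
        ((powersetCard w (Ioc x (2 * x))).filter (fun M => ¬ Regular c C ε x w M)).card * x ^ A ≤
          (powersetCard w (Ioc x (2 * x))).card) ∧
    (∃ c C : ℝ, 0 < c ∧ 0 < C ∧ ∃ M : Set ℕ,
      (∀ x : ℕ, 2 ≤ x → ∃ T : Finset ℕ, (∀ m ∈ M, m ≤ x → m ∈ T) ∧ (T.card : ℝ) ≤ C * Real.log x ^ 4) ∧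
      ∃ n₀ : ℕ, ∀ n : ℕ, n₀ ≤ n → ∃ T : Finset ℕ,
        (∀ m ∈ T, m ∈ M ∧ 1 ≤ m ∧ m < n ∧ ChenIdx ((n : ℝ) ^ (1 / 9 : ℝ)) (n - m)) ∧
        c * Real.log n ≤ T.card) := by
  refine ⟨?_, ?_⟩
  · obtain ⟨c, C, hc, hC, h⟩ := window
    refine ⟨c, C, hc, hC, fun ε hε A => ?_⟩
    obtain ⟨K, hK, x₀, hx₀⟩ := h ε hε A
    refine ⟨K, hK, x₀, fun x hx w hw hwx => ?_⟩
    have h1 := hx₀ x hx w hw hwx
    rw [card_powersetCard, Nat.card_Ioc, show 2 * x - x = x by omega]
    exact h1
  obtain ⟨c, hc, K, hK, x₀, hx₀⟩ := window_exists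
  obtain ⟨x₁, hx₁⟩ := many (2 * K)
  have hl2 : 0 < Real.log 2 := Real.log_pos (by norm_num)
  have hl21 : Real.log 2 < 1 := by
    have := Real.log_two_lt_d9
    linarith
  set N := max (max x₀ x₁) (max 3 ⌈1 / (K * Real.log 2 ^ 3)⌉₊) with hN
  have step : ∀ i : ℕ, ∃ S : Finset ℕ, (∀ m ∈ S, m ∈ Ioc (2 ^ i) (2 * 2 ^ i)) ∧
      (S.card : ℝ) ≤ 2 * K * i ^ 3 ∧ (N ≤ i → ∀ n : ℕ, 3 * 2 ^ i ≤ n → n ≤ 6 * 2 ^ i →
        c * (K * Real.log ((2 ^ i : ℕ) : ℝ) ^ 3 / Real.log ((2 ^ i : ℕ) : ℝ) ^ 2) ≤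
          chen (((48 * 2 ^ i : ℕ) : ℝ) ^ (1 / 9 : ℝ)) S n) := by
    intro i
    by_cases hi : N ≤ i
    · have hpow : i ≤ 2 ^ i := Nat.lt_two_pow_self.le
      have i0 : x₀ ≤ 2 ^ i := (le_trans (le_trans (le_max_left _ _) (le_max_left _ _)) hi).trans hpow
      have i1 : x₁ ≤ 2 ^ i := (le_trans (le_trans (le_max_right _ _) (le_max_left _ _)) hi).trans hpow
      have i3 : 3 ≤ i := le_trans (le_trans (le_max_left _ _) (le_max_right _ _)) hi
      have i4 : 1 / (K * Real.log 2 ^ 3) ≤ i := by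
        have h1 : ⌈1 / (K * Real.log 2 ^ 3)⌉₊ ≤ i := le_trans (le_trans (le_max_right _ _) (le_max_right _ _)) hi
        exact (Nat.le_ceil _).trans (by exact_mod_cast h1)
      have hlogi : Real.log ((2 ^ i : ℕ) : ℝ) = i * Real.log 2 := by
        push_cast
        rw [Real.log_pow]
      have i3r : (3 : ℝ) ≤ i := by exact_mod_cast i3
      set y : ℝ := K * Real.log ((2 ^ i : ℕ) : ℝ) ^ 3 with hy
      have hy1 : 1 ≤ y := by
        rw [hy, hlogi]
        rw [div_le_iff₀ (by positivity)] at i4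
        have h1 : (i : ℝ) * (K * Real.log 2 ^ 3) ≤ (i : ℝ) ^ 3 * (K * Real.log 2 ^ 3) := by
          apply mul_le_mul_of_nonneg_right _ (by positivity)
          nlinarith [sq_nonneg ((i : ℝ))]
        calc (1 : ℝ) ≤ (i : ℝ) * (K * Real.log 2 ^ 3) := i4
          _ ≤ _ := h1
          _ = _ := by ring
      have hceil1 : y ≤ ⌈y⌉₊ := Nat.le_ceil _
      have hceil2 : (⌈y⌉₊ : ℝ) ≤ 2 * y := by
        have := Nat.ceil_lt_add_one (show 0 ≤ y by linarith)
        linarith
      have hyx : ⌈y⌉₊ ≤ 2 ^ i := by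
        have h1 := hx₁ (2 ^ i) i1
        have h2 : (⌈y⌉₊ : ℝ) ≤ ((2 ^ i : ℕ) : ℝ) := by
          refine hceil2.trans ?_
          rw [hy]
          linarith
        exact_mod_cast h2
      obtain ⟨S, hS, hSc, hSN⟩ := hx₀ (2 ^ i) i0 ⌈y⌉₊ hceil1 hyx
      refine ⟨S, fun p hp => hS hp, ?_, fun _ n h4 h8 => ?_⟩
      · rw [hSc]
        refine hceil2.trans ?_
        rw [hy, hlogi]
        have h2 : ((i : ℝ) * Real.log 2) ^ 3 ≤ (i : ℝ) ^ 3 := by
          apply pow_le_pow_left₀ (by positivity)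
          nlinarith
        have h3 := mul_le_mul_of_nonneg_left h2 hK.le
        linarith
      · refine le_trans ?_ (hSN n h4 h8)
        apply mul_le_mul_of_nonneg_left _ hc.le
        exact div_le_div_of_nonneg_right hceil1 (by positivity)
    · refine ⟨∅, by simp, ?_, fun hi' => absurd hi' hi⟩
      rw [card_empty, Nat.cast_zero]
      positivity
  choose S hS hSc hSN using step
  refine ⟨c * K / 2, 4 * K / Real.log 2 ^ 4, by positivity, by positivity, {m | ∃ i, m ∈ S i}, ?_, ?_⟩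
  · intro x hx
    set L := Nat.log 2 x with hL
    have hL1 : 1 ≤ L := (Nat.le_log_iff_pow_le (by norm_num) (by omega)).2 (by simpa using hx)
    refine ⟨(range (L + 1)).biUnion S, ?_, ?_⟩
    · rintro m ⟨i, hi⟩ hmx
      rw [mem_biUnion]
      refine ⟨i, ?_, hi⟩
      rw [mem_range]
      have h1 := hS i m hi
      rw [mem_Ioc] at h1
      have h2 : 2 ^ i ≤ x := by omega
      have h3 : i ≤ L := (Nat.le_log_iff_pow_le (by norm_num) (by omega)).2 h2
      omega
    · have h1 : (((range (L + 1)).biUnion S).card : ℝ) ≤ ∑ i ∈ range (L + 1), ((S i).card : ℝ) := by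
        exact_mod_cast card_biUnion_le
      refine h1.trans ?_
      have h2 : ∑ i ∈ range (L + 1), ((S i).card : ℝ) ≤ ∑ _i ∈ range (L + 1), 2 * K * (L : ℝ) ^ 3 := by
        apply sum_le_sum
        intro i hi
        rw [mem_range] at hi
        refine (hSc i).trans ?_
        apply mul_le_mul_of_nonneg_left _ (by positivity)
        apply pow_le_pow_left₀ (by positivity)
        exact_mod_cast (by omega : i ≤ L)
      refine h2.trans ?_
      rw [sum_const, card_range, nsmul_eq_mul]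
      push_cast
      have hLr : (1 : ℝ) ≤ L := by exact_mod_cast hL1
      have h3 : (L : ℝ) * Real.log 2 ≤ Real.log x := by
        have h4 : 2 ^ L ≤ x := Nat.pow_log_le_self 2 (by omega)
        have h5 : ((2 : ℝ)) ^ L ≤ x := by exact_mod_cast h4
        have h6 := Real.log_le_log (by positivity) h5
        rwa [Real.log_pow] at h6
      have h4 : (L : ℝ) ≤ Real.log x / Real.log 2 := by
        rw [le_div_iff₀ hl2]
        exact h3
      have h5 : (L : ℝ) ^ 4 ≤ (Real.log x / Real.log 2) ^ 4 := pow_le_pow_left₀ (by positivity) h4 4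
      calc ((L : ℝ) + 1) * (2 * K * (L : ℝ) ^ 3) ≤ (2 * L) * (2 * K * (L : ℝ) ^ 3) := by
            apply mul_le_mul_of_nonneg_right _ (by positivity)
            linarith
        _ = 4 * K * (L : ℝ) ^ 4 := by ring
        _ ≤ 4 * K * (Real.log x / Real.log 2) ^ 4 := mul_le_mul_of_nonneg_left h5 (by positivity)
        _ = 4 * K / Real.log 2 ^ 4 * Real.log x ^ 4 := by rw [div_pow]; ring
  · refine ⟨64 * 2 ^ N, ?_⟩
    intro n hn
    have hM : 0 < 2 ^ N := by positivity
    have hn64 : 64 ≤ n := by omega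
    set i := Nat.log 2 (n / 3) with hi
    have hi3 : N + 4 ≤ i := by
      apply (Nat.le_log_iff_pow_le (by norm_num) (by omega)).2
      rw [pow_add]
      omega
    have h1 : 2 ^ i ≤ n / 3 := Nat.pow_log_le_self 2 (by omega)
    have h2 : n / 3 < 2 ^ (i + 1) := Nat.lt_pow_succ_log_self (by norm_num) (n / 3)
    have h3 : 3 * 2 ^ i ≤ n := by omega
    have h4 : n < 6 * 2 ^ i := by
      rw [pow_succ] at h2
      omega
    have h5 := hSN i (by omega) n h3 h4.le
    have hi8 : 16 ≤ 2 ^ i := by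
      calc 16 = 2 ^ 4 := by norm_num
        _ ≤ 2 ^ i := Nat.pow_le_pow_right (by norm_num) (by omega)
    refine ⟨(S i).filter (fun m => ChenIdx (((48 * 2 ^ i : ℕ) : ℝ) ^ (1 / 9 : ℝ)) (n - m)), ?_, ?_⟩
    · intro m hm
      rw [mem_filter] at hm
      have h6 := hS i m hm.1
      rw [mem_Ioc] at h6
      refine ⟨⟨i, hm.1⟩, by omega, by omega, hm.2.1, P2_mono ?_ hm.2.2⟩
      apply Real.rpow_le_rpow (by positivity) _ (by norm_num)
      exact_mod_cast (by omega : n ≤ 48 * 2 ^ i)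
    · have h6 : (n : ℝ) ≤ ((2 ^ i : ℕ) : ℝ) ^ 2 := by
        have h8 : n ≤ (2 ^ i) ^ 2 := by nlinarith
        exact_mod_cast h8
      have hn0 : (0 : ℝ) < n := by exact_mod_cast (by omega : 0 < n)
      have h7 := Real.log_le_log hn0 h6
      rw [Real.log_pow, Nat.cast_ofNat] at h7
      have h8 : 0 < Real.log ((2 ^ i : ℕ) : ℝ) := Real.log_pos (by exact_mod_cast (by omega : 1 < 2 ^ i))
      refine le_trans ?_ h5
      have h10 : c * (K * Real.log ((2 ^ i : ℕ) : ℝ) ^ 3 / Real.log ((2 ^ i : ℕ) : ℝ) ^ 2) =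
          c * K * Real.log ((2 ^ i : ℕ) : ℝ) := by
        field_simp
      rw [h10]
      have h11 : 0 < c * K := by positivity
      nlinarith

end Pool.Agent.Results.MP_ea8352_nt.RandomSecondSummand
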